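import Pool.Agent.Work.MP_8a6a08_lc.Main

set_option autoImplicit false

namespace Pool.Agent.Results.MP_8a6a08_lc.NoUniversalComputer

open Pool.Agent.Work.MP_8a6a08_lc

/-- In every dimension `d ≥ 1` there are a cellular automaton and a Turing domain such that the
automaton is computation-universal (even with finite configurations which never halt outside the
domain of the computed function), but no configuration is a universal computer. -/
theorem result (d : ℕ) (hd : 1 ≤ d) :
    ∃ (S : Type) (_ : Finite S) (A : CA d S) (T : Set (Conf d S)) (ι : ℕ → Conf d S),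
      A.IsTuringDomain T ι ∧ A.ComputationUniversal T ι ∧
      (∀ ψ : ℕ →. ℕ, Nat.Partrec ψ → ∃ c, (A.Supp c).Finite ∧ A.ComputesExactly T ι c ψ) ∧
      ∀ c, ¬ A.IsUniversalComputer T ι c := by
  obtain ⟨d, rfl⟩ := Nat.exists_eq_add_of_le hd
  rw [Nat.add_comm]
  exact main d

end Pool.Agent.Results.MP_8a6a08_lc.NoUniversalComputer
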